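import Mathlib

/-! # Second differences and logarithmic growth -/

set_option autoImplicit false

namespace Pool.Agent.T6.H5.CV

open Filter Topology Finset

/-- summation by parts, twice -/
lemma parts (φ W : ℕ → ℝ) (h0 : W 0 = 0) (R : ℕ) (hR : 1 ≤ R) :
    ∑ j ∈ Ico 1 R, φ j * (W (j + 1) - 2 * W j + W (j - 1)) + φ 0 * W 1 =
      ∑ j ∈ Ico 1 R, W j * (φ (j + 1) - 2 * φ j + φ (j - 1)) + φ (R - 1) * W R - φ R * W (R - 1) := by
  induction R, hR using Nat.le_induction with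
  | base => simp [h0]
  | succ R hR ih =>
    rw [Finset.sum_Ico_succ_top hR, Finset.sum_Ico_succ_top hR]
    have e : R + 1 - 1 = R := by omega
    rw [e]
    linarith

/-- a bound for the first two derivatives -/
lemma bd (φ : ℝ → ℝ) (hφ : ContDiff ℝ 2 φ) : ∃ M : ℝ, 1 ≤ M ∧ ∀ x ∈ Set.Icc (0 : ℝ) 2,
    |deriv φ x| ≤ M ∧ |deriv (deriv φ) x| ≤ M := by
  have h1 : Continuous (deriv φ) := hφ.continuous_deriv (by norm_num)
  have h2 : ContDiff ℝ 1 (deriv φ) := by
    have : ContDiff ℝ (1 + 1) φ := by norm_num; exact hφ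
    exact (contDiff_succ_iff_deriv.1 this).2.2
  have h3 : Continuous (deriv (deriv φ)) := h2.continuous_deriv (by norm_num)
  obtain ⟨M1, hM1⟩ := (isCompact_Icc (a := (0 : ℝ)) (b := 2)).exists_bound_of_continuousOn h1.continuousOn
  obtain ⟨M2, hM2⟩ := (isCompact_Icc (a := (0 : ℝ)) (b := 2)).exists_bound_of_continuousOn h3.continuousOn
  refine ⟨max 1 (max M1 M2), le_max_left _ _, fun x hx => ⟨?_, ?_⟩⟩
  · exact (hM1 x hx).trans ((le_max_left _ _).trans (le_max_right _ _))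
  · exact (hM2 x hx).trans ((le_max_right _ _).trans (le_max_right _ _))

lemma first (φ : ℝ → ℝ) (hφ : ContDiff ℝ 2 φ) (M : ℝ) (hM : ∀ x ∈ Set.Icc (0 : ℝ) 2,
    |deriv φ x| ≤ M ∧ |deriv (deriv φ) x| ≤ M) {x y : ℝ} (hx : x ∈ Set.Icc (0 : ℝ) 2)
    (hy : y ∈ Set.Icc (0 : ℝ) 2) : |φ y - φ x| ≤ M * |y - x| := by
  have hd : Differentiable ℝ φ := hφ.differentiable (by norm_num)
  have := (convex_Icc (0 : ℝ) 2).norm_image_sub_le_of_norm_deriv_le (f := φ) (C := M)
    (fun z _ => hd z) (fun z hz => (hM z hz).1) hx hy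
  exact this

lemma firstD (φ : ℝ → ℝ) (hφ : ContDiff ℝ 2 φ) (M : ℝ) (hM : ∀ x ∈ Set.Icc (0 : ℝ) 2,
    |deriv φ x| ≤ M ∧ |deriv (deriv φ) x| ≤ M) {x y : ℝ} (hx : x ∈ Set.Icc (0 : ℝ) 2)
    (hy : y ∈ Set.Icc (0 : ℝ) 2) : |deriv φ y - deriv φ x| ≤ M * |y - x| := by
  have h2 : ContDiff ℝ 1 (deriv φ) := by
    have : ContDiff ℝ (1 + 1) φ := by norm_num; exact hφ
    exact (contDiff_succ_iff_deriv.1 this).2.2
  have hd : Differentiable ℝ (deriv φ) := h2.differentiable (by norm_num)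
  exact (convex_Icc (0 : ℝ) 2).norm_image_sub_le_of_norm_deriv_le (f := deriv φ) (C := M)
    (fun z _ => hd z) (fun z hz => (hM z hz).2) hx hy

lemma second (φ : ℝ → ℝ) (hφ : ContDiff ℝ 2 φ) (M : ℝ) (hM : ∀ x ∈ Set.Icc (0 : ℝ) 2,
    |deriv φ x| ≤ M ∧ |deriv (deriv φ) x| ≤ M) {x h : ℝ} (h0 : 0 ≤ h) (hx : 0 ≤ x - h)
    (hy : x + h ≤ 2) : |φ (x + h) - 2 * φ x + φ (x - h)| ≤ M * h ^ 2 := by
  have hd : Differentiable ℝ φ := hφ.differentiable (by norm_num)
  have hF : ∀ s : ℝ, HasDerivAt (fun s => φ (x + s) - φ (x - h + s))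
      (deriv φ (x + s) - deriv φ (x - h + s)) s := by
    intro s
    have h1 : HasDerivAt (fun s => φ (x + s)) (deriv φ (x + s)) s := by
      have := HasDerivAt.comp_const_add x s (hd (x + s)).hasDerivAt
      exact this
    have h2 : HasDerivAt (fun s => φ (x - h + s)) (deriv φ (x - h + s)) s := by
      have := HasDerivAt.comp_const_add (x - h) s (hd (x - h + s)).hasDerivAt
      exact this
    exact h1.sub h2
  have key := (convex_Icc (0 : ℝ) h).norm_image_sub_le_of_norm_hasDerivWithin_le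
    (f := fun s => φ (x + s) - φ (x - h + s)) (f' := fun s => deriv φ (x + s) - deriv φ (x - h + s))
    (C := M * h) (fun s _ => (hF s).hasDerivWithinAt) (fun s hs => by
      rw [Real.norm_eq_abs]
      refine (firstD φ hφ M hM (x := x - h + s) (y := x + s) ?_ ?_).trans (le_of_eq ?_)
      · constructor <;> linarith [hs.1, hs.2]
      · constructor <;> linarith [hs.1, hs.2]
      · have : x + s - (x - h + s) = h := by ring
        rw [this, abs_of_nonneg h0])
    (Set.left_mem_Icc.2 h0) (Set.right_mem_Icc.2 h0)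
  rw [Real.norm_eq_abs, Real.norm_eq_abs, sub_zero, abs_of_nonneg h0] at key
  have e : φ (x + h) - 2 * φ x + φ (x - h) = φ (x + h) - φ (x - h + h) - (φ (x + 0) - φ (x - h + 0)) := by
    rw [sub_add_cancel, add_zero, add_zero]; ring
  rw [e]
  calc _ ≤ M * h * h := key
    _ = _ := by ring

lemma taylor (φ : ℝ → ℝ) (hφ : ContDiff ℝ 2 φ) (M : ℝ) (hM : ∀ x ∈ Set.Icc (0 : ℝ) 2,
    |deriv φ x| ≤ M ∧ |deriv (deriv φ) x| ≤ M) {h : ℝ} (h0 : 0 ≤ h) (h2 : h ≤ 2) :
    |φ h - φ 0 - deriv φ 0 * h| ≤ M * h ^ 2 := by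
  have hd : Differentiable ℝ φ := hφ.differentiable (by norm_num)
  have hF : ∀ s : ℝ, HasDerivAt (fun s => φ s - deriv φ 0 * s) (deriv φ s - deriv φ 0) s := by
    intro s
    have h1 := (hasDerivAt_id s).const_mul (deriv φ 0)
    simp only [id, mul_one] at h1
    exact (hd s).hasDerivAt.sub h1
  have key := (convex_Icc (0 : ℝ) h).norm_image_sub_le_of_norm_hasDerivWithin_le
    (f := fun s => φ s - deriv φ 0 * s) (f' := fun s => deriv φ s - deriv φ 0)
    (C := M * h) (fun s _ => (hF s).hasDerivWithinAt) (fun s hs => by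
      rw [Real.norm_eq_abs]
      refine (firstD φ hφ M hM (x := 0) (y := s) ?_ ?_).trans ?_
      · constructor <;> norm_num
      · constructor <;> linarith [hs.1, hs.2]
      · rw [sub_zero, abs_of_nonneg hs.1]
        have hM0 : 0 ≤ M := (abs_nonneg _).trans (hM 0 (by constructor <;> norm_num)).1
        exact mul_le_mul_of_nonneg_left hs.2 hM0)
    (Set.left_mem_Icc.2 h0) (Set.right_mem_Icc.2 h0)
  rw [Real.norm_eq_abs, Real.norm_eq_abs, sub_zero, abs_of_nonneg h0, mul_zero, sub_zero] at key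
  have e : φ h - φ 0 - deriv φ 0 * h = φ h - deriv φ 0 * h - φ 0 := by ring
  rw [e]
  calc _ ≤ M * h * h := key
    _ = _ := by ring

/-- the telescoping sum of second differences -/
lemma tele (φ : ℕ → ℝ) (R : ℕ) (hR : 1 ≤ R) :
    ∑ j ∈ Ico 1 R, (φ (j + 1) - 2 * φ j + φ (j - 1)) = φ R - φ (R - 1) - (φ 1 - φ 0) := by
  induction R, hR using Nat.le_induction with
  | base => simp
  | succ R hR ih =>
    rw [Finset.sum_Ico_succ_top hR, ih]
    have e : R + 1 - 1 = R := by omega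
    rw [e]
    ring

lemma logsum (ε : ℝ) (hε : 0 < ε) : ∃ R0 : ℕ, 2 ≤ R0 ∧ ∀ R : ℕ, R0 ≤ R →
    ∑ j ∈ Ico 1 R, (Real.log R - Real.log j) ≤ ε * R * Real.log R := by
  obtain ⟨d, hd⟩ : ∃ d : ℝ, d = min (1 / 2) (ε / 4) := ⟨_, rfl⟩
  have hd0 : 0 < d := by rw [hd]; positivity
  have hd1 : d ≤ ε / 4 := by rw [hd]; exact min_le_right _ _
  have h1 : Tendsto (fun R : ℕ => Real.log (R : ℝ)) atTop atTop :=
    Real.tendsto_log_atTop.comp tendsto_natCast_atTop_atTop
  obtain ⟨R1, hR1⟩ := eventually_atTop.1 ((h1.eventually_ge_atTop (2 * Real.log (1 / d) / ε)).and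
    ((h1.eventually_ge_atTop 1).and (tendsto_natCast_atTop_atTop.eventually_ge_atTop (4 / ε))))
  refine ⟨max 2 R1, le_max_left _ _, fun R hR => ?_⟩
  obtain ⟨h2, h3, h3'⟩ := hR1 R ((le_max_right _ _).trans hR)
  have hR2 : 2 ≤ R := (le_max_left _ _).trans hR
  have hR0 : (0 : ℝ) < R := by exact_mod_cast (by omega : 0 < R)
  have hpt : ∀ j ∈ Ico 1 R, Real.log R - Real.log j ≤
      Real.log (1 / d) + (if (j : ℝ) < d * R then Real.log R else 0) := by
    intro j hj
    rw [Finset.mem_Ico] at hj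
    have hj0 : (0 : ℝ) < j := by exact_mod_cast (by omega : 0 < j)
    have hlj : 0 ≤ Real.log j := Real.log_nonneg (by exact_mod_cast hj.1)
    have hld : 0 ≤ Real.log (1 / d) := by
      apply Real.log_nonneg
      rw [le_div_iff₀ hd0, one_mul, hd]
      exact (min_le_left _ _).trans (by norm_num)
    split_ifs with h
    · linarith
    · push Not at h
      rw [add_zero, ← Real.log_div hR0.ne' hj0.ne']
      apply Real.log_le_log (by positivity)
      rw [div_le_div_iff₀ hj0 hd0]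
      linarith
  refine (Finset.sum_le_sum hpt).trans ?_
  rw [Finset.sum_add_distrib, Finset.sum_const, Nat.card_Ico, nsmul_eq_mul, ← Finset.sum_filter,
    Finset.sum_const, nsmul_eq_mul]
  have hcard : (((Ico 1 R).filter (fun j : ℕ => (j : ℝ) < d * R)).card : ℝ) ≤ d * R := by
    have hsub : (Ico 1 R).filter (fun j : ℕ => (j : ℝ) < d * R) ⊆ Ioc 0 ⌊d * R⌋₊ := by
      intro j hj
      rw [Finset.mem_filter, Finset.mem_Ico] at hj
      rw [Finset.mem_Ioc]
      exact ⟨by omega, Nat.le_floor hj.2.le⟩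
    have h5 := Finset.card_le_card hsub
    rw [Nat.card_Ioc, Nat.sub_zero] at h5
    exact (by exact_mod_cast h5 : _ ≤ ((⌊d * R⌋₊ : ℕ) : ℝ)).trans (Nat.floor_le (by positivity))
  have hlR : 0 ≤ Real.log (R : ℝ) := by linarith
  have h6 : ((R - 1 : ℕ) : ℝ) ≤ R := by exact_mod_cast Nat.sub_le _ _
  have hld : 0 ≤ Real.log (1 / d) := by
    apply Real.log_nonneg
    rw [le_div_iff₀ hd0, one_mul, hd]
    exact (min_le_left _ _).trans (by norm_num)
  have h7 : Real.log (1 / d) ≤ ε / 2 * Real.log R := by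
    rw [div_le_iff₀ hε] at h2
    linarith
  calc ((R - 1 : ℕ) : ℝ) * Real.log (1 / d) + _ * Real.log R ≤
      R * (ε / 2 * Real.log R) + d * R * Real.log R := by gcongr
    _ ≤ R * (ε / 2 * Real.log R) + ε / 4 * R * Real.log R := by gcongr
    _ ≤ _ := by nlinarith [mul_nonneg hR0.le hlR]

/-- the main estimate -/
theorem main (φ : ℝ → ℝ) (hφ : ContDiff ℝ 2 φ) (h1 : φ 1 = 0) (ε : ℝ) (hε : 0 < ε) (c : ℝ) (hc : 0 ≤ c) :
    ∃ η : ℝ, 0 < η ∧ ∀ (j0 : ℕ) (K : ℝ), ∃ R0 : ℕ, 2 ≤ R0 ∧ ∀ R : ℕ, R0 ≤ R → ∀ W : ℕ → ℝ, W 0 = 0 →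
      (∀ j, 1 ≤ j → j < j0 → |W j| ≤ K) →
      (∀ j, 1 ≤ j → j0 ≤ j → j ≤ R → |W j - c * Real.log j| ≤ η * Real.log R) →
      |R * (∑ j ∈ Ico 1 R, φ ((j : ℕ) / R) * (W (j + 1) - 2 * W j + W (j - 1)) + φ 0 * W 1) +
        deriv φ 0 * c * Real.log R| ≤ ε * Real.log R := by
  obtain ⟨M, hM1, hM⟩ := bd φ hφ
  obtain ⟨η, hη⟩ : ∃ η : ℝ, η = ε / (8 * M) := ⟨_, rfl⟩
  have hη0 : 0 < η := by rw [hη]; positivity
  refine ⟨η, hη0, fun j0 K => ?_⟩
  obtain ⟨R1, hR1, hls⟩ := logsum (ε / (8 * M * (c + 1))) (by positivity)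
  have hlog : Tendsto (fun R : ℕ => Real.log (R : ℝ)) atTop atTop :=
    Real.tendsto_log_atTop.comp tendsto_natCast_atTop_atTop
  obtain ⟨R2, hR2⟩ := eventually_atTop.1 ((hlog.eventually_ge_atTop 1).and
    (tendsto_natCast_atTop_atTop.eventually_ge_atTop (max (8 * M * c / ε)
      (8 * M * j0 * (|K| + c) / ε))))
  refine ⟨max R1 (max R2 (j0 + 1)), hR1.trans (le_max_left _ _), fun R hR W hW0 hWs hWl => ?_⟩
  have hRR1 : R1 ≤ R := (le_max_left _ _).trans hR
  have hR2' : 2 ≤ R := hR1.trans hRR1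
  obtain ⟨hlR, hRb⟩ := hR2 R ((le_max_left _ _).trans ((le_max_right _ _).trans hR))
  have hj0R : j0 + 1 ≤ R := (le_max_right _ _).trans ((le_max_right _ _).trans hR)
  have hR0 : (0 : ℝ) < R := by exact_mod_cast (by omega : 0 < R)
  obtain ⟨L, hL⟩ : ∃ L : ℝ, L = Real.log R := ⟨_, rfl⟩
  rw [← hL] at hlR ⊢
  obtain ⟨p, hp⟩ : ∃ p : ℕ → ℝ, p = fun j => φ ((j : ℕ) / R) := ⟨_, rfl⟩
  have hpR : p R = 0 := by rw [hp]; simp only; rw [div_self hR0.ne', h1]
  have hp0 : p 0 = φ 0 := by rw [hp]; simp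
  have e1 : ∑ j ∈ Ico 1 R, φ ((j : ℕ) / R) * (W (j + 1) - 2 * W j + W (j - 1)) + φ 0 * W 1 =
      ∑ j ∈ Ico 1 R, W j * (p (j + 1) - 2 * p j + p (j - 1)) + p (R - 1) * W R := by
    have := parts p W hW0 R (by omega)
    rw [hpR, zero_mul, sub_zero] at this
    rw [← this, hp0]
    simp only [hp]
  -- the constant part
  have e2 := tele p R (by omega)
  rw [hpR] at e2
  have e3 : R * (∑ j ∈ Ico 1 R, φ ((j : ℕ) / R) * (W (j + 1) - 2 * W j + W (j - 1)) + φ 0 * W 1) +
      deriv φ 0 * c * L = R * (∑ j ∈ Ico 1 R, (W j - c * L) * (p (j + 1) - 2 * p j + p (j - 1)) +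
        p (R - 1) * (W R - c * L)) - c * L * (R * (p 1 - p 0 - deriv φ 0 * (1 / R))) := by
    rw [e1]
    have e4 : ∑ j ∈ Ico 1 R, (W j - c * L) * (p (j + 1) - 2 * p j + p (j - 1)) =
        ∑ j ∈ Ico 1 R, W j * (p (j + 1) - 2 * p j + p (j - 1)) -
        c * L * (0 - p (R - 1) - (p 1 - p 0)) := by
      rw [← e2, Finset.mul_sum, ← Finset.sum_sub_distrib]
      refine Finset.sum_congr rfl fun j _ => ?_
      ring
    rw [e4]
    have e5 : deriv φ 0 * c * L = c * L * (R * (deriv φ 0 * (1 / R))) := by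
      field_simp
    rw [e5]
    ring
  rw [e3]
  -- second differences
  have hsd : ∀ j ∈ Ico 1 R, |p (j + 1) - 2 * p j + p (j - 1)| ≤ M / R ^ 2 := by
    intro j hj
    rw [Finset.mem_Ico] at hj
    have hj1 : (1 : ℝ) ≤ j := by exact_mod_cast hj.1
    have hjR : (j : ℝ) + 1 ≤ R := by exact_mod_cast hj.2
    have h2 := second φ hφ M hM (x := (j : ℝ) / R) (h := 1 / R) (by positivity)
      (by rw [← sub_div]; exact div_nonneg (by linarith) hR0.le)
      (by rw [← add_div, div_le_iff₀ hR0]; linarith)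
    rw [hp]
    simp only
    have e6 : (((j + 1 : ℕ) : ℝ)) / R = (j : ℝ) / R + 1 / R := by push_cast; rw [add_div]
    have e7 : (((j - 1 : ℕ) : ℝ)) / R = (j : ℝ) / R - 1 / R := by
      rw [Nat.cast_sub hj.1, Nat.cast_one, sub_div]
    rw [e6, e7]
    calc _ ≤ M * (1 / R) ^ 2 := h2
      _ = _ := by field_simp
  have hpl : |p (R - 1)| ≤ M / R := by
    have h2 := first φ hφ M hM (x := 1) (y := ((R - 1 : ℕ) : ℝ) / R) (by constructor <;> norm_num) (by
      constructor
      · positivity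
      · rw [div_le_iff₀ hR0]
        have : ((R - 1 : ℕ) : ℝ) ≤ R := by exact_mod_cast Nat.sub_le _ _
        linarith)
    have e6 : ((R - 1 : ℕ) : ℝ) / R - 1 = -(1 / R) := by
      rw [Nat.cast_sub (by omega), Nat.cast_one]
      field_simp
      ring
    have e8 : (0 : ℝ) < 1 / (R : ℝ) := by positivity
    rw [h1, sub_zero, e6, abs_neg, abs_of_pos e8] at h2
    rw [hp]
    simp only
    calc _ ≤ M * (1 / R) := h2
      _ = _ := by ring
  have hfd : |p 1 - p 0 - deriv φ 0 * (1 / R)| ≤ M / R ^ 2 := by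
    have hR1' : (1 : ℝ) ≤ R := by exact_mod_cast (by omega : 1 ≤ R)
    have h2 := taylor φ hφ M hM (h := 1 / R) (by positivity)
      (by rw [div_le_iff₀ hR0]; linarith)
    rw [hp]
    simp only [Nat.cast_one, Nat.cast_zero, zero_div]
    calc _ ≤ M * (1 / R) ^ 2 := h2
      _ = _ := by field_simp
  have hM0 : 0 < M := by linarith
  have hL0 : 0 < L := by linarith
  -- deviations
  have hdev : ∀ j ∈ Ico 1 R, |W j - c * L| ≤ c * (Real.log R - Real.log j) + η * L +
      (if j < j0 then |K| + c * L else 0) := by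
    intro j hj
    rw [Finset.mem_Ico] at hj
    have hj0' : (0 : ℝ) < j := by exact_mod_cast (by omega : 0 < j)
    have hlj : Real.log j ≤ Real.log R := Real.log_le_log hj0' (by exact_mod_cast hj.2.le)
    have hcl : 0 ≤ c * (Real.log R - Real.log j) := mul_nonneg hc (by linarith)
    have hηL : 0 ≤ η * L := by positivity
    split_ifs with h
    · have h2 := hWs j hj.1 h
      have h3 : |W j - c * L| ≤ |W j| + c * L := by
        refine (abs_sub _ _).trans ?_
        rw [abs_of_nonneg (by positivity : 0 ≤ c * L)]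
      have h4 : K ≤ |K| := le_abs_self _
      linarith
    · push Not at h
      have h2 := hWl j hj.1 h hj.2.le
      have e6 : W j - c * L = (W j - c * Real.log j) - c * (Real.log R - Real.log j) := by rw [hL]; ring
      rw [e6, add_zero]
      refine (abs_sub _ _).trans ?_
      rw [abs_of_nonneg hcl]
      rw [← hL] at h2
      linarith
  have hdevR : |W R - c * L| ≤ η * L := by
    have := hWl R (by omega) (by omega) le_rfl
    rwa [← hL] at this
  have hsum : ∑ j ∈ Ico 1 R, |W j - c * L| ≤ c * (ε / (8 * M * (c + 1)) * R * L) + R * (η * L) +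
      j0 * (|K| + c * L) := by
    refine (Finset.sum_le_sum hdev).trans ?_
    rw [Finset.sum_add_distrib, Finset.sum_add_distrib, ← Finset.mul_sum, Finset.sum_const,
      Nat.card_Ico, nsmul_eq_mul, ← Finset.sum_filter, Finset.sum_const, nsmul_eq_mul]
    have h2 := hls R hRR1
    rw [← hL] at h2 ⊢
    have h3 : ((R - 1 : ℕ) : ℝ) ≤ R := by exact_mod_cast Nat.sub_le _ _
    have h4 : (((Ico 1 R).filter (fun j => j < j0)).card : ℝ) ≤ j0 := by
      have hsub : (Ico 1 R).filter (fun j => j < j0) ⊆ Finset.range j0 := by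
        intro j hj
        rw [Finset.mem_filter] at hj
        rw [Finset.mem_range]
        exact hj.2
      have := Finset.card_le_card hsub
      rw [Finset.card_range] at this
      exact_mod_cast this
    gcongr
  have hA : |R * (∑ j ∈ Ico 1 R, (W j - c * L) * (p (j + 1) - 2 * p j + p (j - 1)) +
        p (R - 1) * (W R - c * L))| ≤ M / R * ∑ j ∈ Ico 1 R, |W j - c * L| + M * (η * L) := by
    rw [abs_mul, abs_of_pos hR0]
    have h2 : |∑ j ∈ Ico 1 R, (W j - c * L) * (p (j + 1) - 2 * p j + p (j - 1)) +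
        p (R - 1) * (W R - c * L)| ≤ ∑ j ∈ Ico 1 R, |W j - c * L| * (M / R ^ 2) + M / R * (η * L) := by
      refine (abs_add_le _ _).trans (add_le_add ?_ ?_)
      · refine (Finset.abs_sum_le_sum_abs _ _).trans (Finset.sum_le_sum fun j hj => ?_)
        rw [abs_mul]
        exact mul_le_mul_of_nonneg_left (hsd j hj) (abs_nonneg _)
      · rw [abs_mul]
        exact mul_le_mul hpl hdevR (abs_nonneg _) (by positivity)
    calc (R : ℝ) * _ ≤ R * (∑ j ∈ Ico 1 R, |W j - c * L| * (M / R ^ 2) + M / R * (η * L)) :=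
          mul_le_mul_of_nonneg_left h2 hR0.le
      _ = _ := by
        rw [← Finset.sum_mul]
        field_simp
  have hB : |c * L * (R * (p 1 - p 0 - deriv φ 0 * (1 / R)))| ≤ c * L * (M / R) := by
    rw [abs_mul, abs_of_nonneg (by positivity : 0 ≤ c * L), abs_mul, abs_of_pos hR0]
    calc c * L * (R * _) ≤ c * L * (R * (M / R ^ 2)) := by gcongr
      _ = _ := by field_simp
  have hRb1 : 8 * M * c / ε ≤ R := (le_max_left _ _).trans hRb
  have hRb2 : 8 * M * j0 * (|K| + c) / ε ≤ R := (le_max_right _ _).trans hRb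
  rw [div_le_iff₀ hε] at hRb1 hRb2
  have t1 : c * L * (M / R) ≤ ε / 8 * L := by
    have : c * (M / R) ≤ ε / 8 := by
      rw [mul_div_assoc', div_le_iff₀ hR0]
      linarith
    calc c * L * (M / R) = c * (M / R) * L := by ring
      _ ≤ _ := mul_le_mul_of_nonneg_right this hL0.le
  have t2 : M * (η * L) = ε / 8 * L := by
    rw [hη]; field_simp
  have t3 : M / R * (c * (ε / (8 * M * (c + 1)) * R * L)) ≤ ε / 8 * L := by
    have e6 : M / R * (c * (ε / (8 * M * (c + 1)) * R * L)) = (c / (c + 1)) * (ε / 8 * L) := by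
      field_simp
    rw [e6]
    have : c / (c + 1) ≤ 1 := by rw [div_le_one (by linarith)]; linarith
    calc c / (c + 1) * (ε / 8 * L) ≤ 1 * (ε / 8 * L) := mul_le_mul_of_nonneg_right this (by positivity)
      _ = _ := one_mul _
  have t4 : M / R * (R * (η * L)) = ε / 8 * L := by
    rw [← t2]; field_simp
  have t5 : M / R * (j0 * (|K| + c * L)) ≤ ε / 8 * L := by
    have h2 : (j0 : ℝ) * (|K| + c * L) ≤ j0 * (|K| + c) * L := by
      have : |K| ≤ |K| * L := le_mul_of_one_le_right (abs_nonneg _) hlR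
      have hj : (0 : ℝ) ≤ j0 := Nat.cast_nonneg _
      nlinarith
    calc M / R * (j0 * (|K| + c * L)) ≤ M / R * (j0 * (|K| + c) * L) :=
          mul_le_mul_of_nonneg_left h2 (by positivity)
      _ = M * j0 * (|K| + c) / R * L := by ring
      _ ≤ ε / 8 * L := by
        apply mul_le_mul_of_nonneg_right _ hL0.le
        rw [div_le_iff₀ hR0]
        linarith
  have t6 : M / R * ∑ j ∈ Ico 1 R, |W j - c * L| ≤ ε / 8 * L + ε / 8 * L + ε / 8 * L := by
    calc M / R * ∑ j ∈ Ico 1 R, |W j - c * L| ≤ M / R * (c * (ε / (8 * M * (c + 1)) * R * L) +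
        R * (η * L) + j0 * (|K| + c * L)) := mul_le_mul_of_nonneg_left hsum (by positivity)
      _ = M / R * (c * (ε / (8 * M * (c + 1)) * R * L)) + M / R * (R * (η * L)) +
        M / R * (j0 * (|K| + c * L)) := by ring
      _ ≤ _ := add_le_add (add_le_add t3 t4.le) t5
  refine (abs_sub _ _).trans ?_
  have : 0 < ε * L := by positivity
  linarith

end Pool.Agent.T6.H5.CV
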