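import Pool.Agent.T6.H5.CV.Abel
import Pool.Agent.R320.VQ.Conv

/-! # The covariances of the unfolded gaps, on RH -/

set_option autoImplicit false

namespace Pool.Agent.T6.H5.CV

open Filter Topology Finset
open SP (RHs)
open Pool.Agent.R320.CL (SS dl)
open Pool.Agent.R320.VQ (XX conv SS_mom)
open Pool.Agent.Y743.CL (lm)

noncomputable section

/-- the covariances -/
def Cv (N j : ℕ) : ℝ := (N : ℝ)⁻¹ * ∑ n ∈ Icc 1 N, (dl n - 1) * (dl (n + j) - 1)

/-- the variance function obtained from the covariances -/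
def WW (N j : ℕ) : ℝ := j * Cv N 0 + 2 * ∑ i ∈ Ico 1 j, ((j : ℝ) - i) * Cv N i

lemma WW_zero (N : ℕ) : WW N 0 = 0 := by simp [WW]

lemma WW_one (N : ℕ) : WW N 1 = Cv N 0 := by simp [WW]

lemma WW_dif (N j : ℕ) (hj : 1 ≤ j) : WW N (j + 1) - 2 * WW N j + WW N (j - 1) = 2 * Cv N j := by
  obtain ⟨k, rfl⟩ := Nat.exists_eq_add_of_le hj
  have e : 1 + k - 1 = k := by omega
  rw [e]
  unfold WW
  rcases Nat.eq_zero_or_pos k with h | h
  · subst h
    simp
    ring
  · have h1 : ∑ i ∈ Ico 1 (1 + k + 1), (((1 + k + 1 : ℕ) : ℝ) - i) * Cv N i =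
        ∑ i ∈ Ico 1 k, (((1 + k + 1 : ℕ) : ℝ) - i) * Cv N i + (((1 + k + 1 : ℕ) : ℝ) - k) * Cv N k +
        (((1 + k + 1 : ℕ) : ℝ) - ((1 + k : ℕ) : ℝ)) * Cv N (1 + k) := by
      rw [Finset.sum_Ico_succ_top (by omega), show 1 + k = k + 1 by ring,
        Finset.sum_Ico_succ_top (by omega)]
    have h2 : ∑ i ∈ Ico 1 (1 + k), (((1 + k : ℕ) : ℝ) - i) * Cv N i =
        ∑ i ∈ Ico 1 k, (((1 + k : ℕ) : ℝ) - i) * Cv N i + (((1 + k : ℕ) : ℝ) - k) * Cv N k := by
      rw [show 1 + k = k + 1 by ring, Finset.sum_Ico_succ_top (by omega)]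
    rw [h1, h2]
    have h3 : ∑ i ∈ Ico 1 k, (((1 + k + 1 : ℕ) : ℝ) - i) * Cv N i -
        2 * ∑ i ∈ Ico 1 k, (((1 + k : ℕ) : ℝ) - i) * Cv N i + ∑ i ∈ Ico 1 k, ((k : ℝ) - i) * Cv N i = 0 := by
      rw [Finset.mul_sum, ← Finset.sum_sub_distrib, ← Finset.sum_add_distrib]
      apply Finset.sum_eq_zero
      intro i _
      push_cast
      ring
    push_cast at h3 ⊢
    linear_combination 2 * h3

/-- shifted sums of products -/
lemma shift (x : ℕ → ℝ) (N R i d : ℕ) (hi : i + d ≤ R) :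
    |∑ n ∈ Icc 1 N, x (n + i) * x (n + (i + d)) - ∑ n ∈ Icc 1 N, x n * x (n + d)| ≤
      ∑ n ∈ Icc 1 (2 * R), x n ^ 2 + ∑ n ∈ Ioc N (N + 2 * R), x n ^ 2 := by
  have h1 : ∑ n ∈ Icc 1 N, x (n + i) * x (n + (i + d)) = ∑ n ∈ Ioc i (N + i), x n * x (n + d) := by
    have hsub : Ioc i (N + i) = (Icc 1 N).map (addRightEmbedding i) := by
      ext m
      simp only [Finset.mem_Ioc, Finset.mem_map, Finset.mem_Icc, addRightEmbedding_apply]
      constructor
      · intro h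
        exact ⟨m - i, by omega, by omega⟩
      · rintro ⟨a, h2, rfl⟩
        omega
    rw [hsub, Finset.sum_map]
    refine Finset.sum_congr rfl fun n _ => ?_
    simp only [addRightEmbedding_apply]
    rw [show n + i + d = n + (i + d) by ring]
  have h2 : ∑ n ∈ Ioc 0 (N + i), x n * x (n + d) = ∑ n ∈ Ioc 0 i, x n * x (n + d) +
      ∑ n ∈ Ioc i (N + i), x n * x (n + d) :=
    (Finset.sum_Ioc_consecutive _ (Nat.zero_le _) (by omega)).symm
  have h3 : ∑ n ∈ Ioc 0 (N + i), x n * x (n + d) = ∑ n ∈ Ioc 0 N, x n * x (n + d) +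
      ∑ n ∈ Ioc N (N + i), x n * x (n + d) :=
    (Finset.sum_Ioc_consecutive _ (Nat.zero_le _) (by omega)).symm
  have h4 : Icc 1 N = Ioc 0 N := by ext; simp [Finset.mem_Icc, Finset.mem_Ioc, Nat.succ_le_iff]
  have key : ∀ a b : ℕ, b - a + d ≤ 2 * R → a ≤ b → |∑ n ∈ Ioc a b, x n * x (n + d)| ≤
      ∑ n ∈ Ioc a (a + 2 * R), x n ^ 2 := by
    intro a b hb hab
    have hpt : ∀ n ∈ Ioc a b, |x n * x (n + d)| ≤ 1 / 2 * x n ^ 2 + 1 / 2 * x (n + d) ^ 2 := by
      intro n _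
      rw [abs_mul]
      nlinarith [sq_nonneg (|x n| - |x (n + d)|), sq_abs (x n), sq_abs (x (n + d))]
    refine (Finset.abs_sum_le_sum_abs _ _).trans ((Finset.sum_le_sum hpt).trans ?_)
    rw [Finset.sum_add_distrib, ← Finset.mul_sum, ← Finset.mul_sum]
    have h5 : ∑ n ∈ Ioc a b, x n ^ 2 ≤ ∑ n ∈ Ioc a (a + 2 * R), x n ^ 2 := by
      apply Finset.sum_le_sum_of_subset_of_nonneg
      · intro n hn
        rw [Finset.mem_Ioc] at hn ⊢
        omega
      · intro n _ _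
        positivity
    have h6 : ∑ n ∈ Ioc a b, x (n + d) ^ 2 ≤ ∑ n ∈ Ioc a (a + 2 * R), x n ^ 2 := by
      have e : ∑ n ∈ Ioc a b, x (n + d) ^ 2 = ∑ n ∈ (Ioc a b).map (addRightEmbedding d), x n ^ 2 := by
        rw [Finset.sum_map]
        rfl
      rw [e]
      apply Finset.sum_le_sum_of_subset_of_nonneg
      · intro n hn
        simp only [Finset.mem_Ioc, Finset.mem_map, addRightEmbedding_apply] at hn ⊢
        obtain ⟨m, h7, rfl⟩ := hn
        omega
      · intro n _ _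
        positivity
    linarith
  have h5 := key 0 i (by omega) (Nat.zero_le _)
  have h6 := key N (N + i) (by omega) (by omega)
  rw [h1, h4]
  have e : ∑ n ∈ Ioc i (N + i), x n * x (n + d) - ∑ n ∈ Ioc 0 N, x n * x (n + d) =
      ∑ n ∈ Ioc N (N + i), x n * x (n + d) - ∑ n ∈ Ioc 0 i, x n * x (n + d) := by linarith
  rw [e]
  have h7 : Icc 1 (2 * R) = Ioc 0 (0 + 2 * R) := by
    ext; simp [Finset.mem_Icc, Finset.mem_Ioc, Nat.succ_le_iff]
  rw [h7]
  refine (abs_sub _ _).trans ?_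
  linarith

/-- the double sum -/
lemma dbl (c : ℕ → ℝ) (j : ℕ) : ∑ i ∈ range j, ∑ i' ∈ range j, c (max i i' - min i i') =
    j * c 0 + 2 * ∑ i ∈ Ico 1 j, ((j : ℝ) - i) * c i := by
  induction j with
  | zero => simp
  | succ j ih =>
    have h1 : ∑ i ∈ range (j + 1), ∑ i' ∈ range (j + 1), c (max i i' - min i i') =
        ∑ i ∈ range j, ∑ i' ∈ range j, c (max i i' - min i i') + 2 * ∑ i ∈ range j, c (j - i) + c 0 := by
      rw [Finset.sum_range_succ]
      have h2 : ∀ i ∈ range j, ∑ i' ∈ range (j + 1), c (max i i' - min i i') =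
          ∑ i' ∈ range j, c (max i i' - min i i') + c (j - i) := by
        intro i hi
        rw [Finset.sum_range_succ]
        rw [Finset.mem_range] at hi
        rw [max_eq_right hi.le, min_eq_left hi.le]
      rw [Finset.sum_congr rfl h2, Finset.sum_add_distrib, Finset.sum_range_succ]
      have h3 : ∀ i ∈ range j, c (max j i - min j i) = c (j - i) := by
        intro i hi
        rw [Finset.mem_range] at hi
        rw [max_eq_left hi.le, min_eq_right hi.le]
      rw [Finset.sum_congr rfl h3, max_self, min_self, Nat.sub_self]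
      ring
    rw [h1, ih]
    have h4 : ∑ i ∈ range j, c (j - i) = ∑ i ∈ Ico 1 (j + 1), c i := by
      rw [← Finset.sum_range_reflect, Finset.sum_Ico_eq_sum_range]
      apply Finset.sum_congr
      · simp
      · intro i hi
        simp only [Finset.mem_range] at hi
        congr 1
        omega
    rw [h4]
    have h5 : ∑ i ∈ Ico 1 (j + 1), (((j + 1 : ℕ) : ℝ) - i) * c i =
        ∑ i ∈ Ico 1 j, ((j : ℝ) - i) * c i + ∑ i ∈ Ico 1 (j + 1), c i := by
      rcases Nat.eq_zero_or_pos j with h | h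
      · subst h; simp
      · rw [Finset.sum_Ico_succ_top (by omega), Finset.sum_Ico_succ_top (by omega)]
        have : ∑ i ∈ Ico 1 j, (((j + 1 : ℕ) : ℝ) - i) * c i =
            ∑ i ∈ Ico 1 j, ((j : ℝ) - i) * c i + ∑ i ∈ Ico 1 j, c i := by
          rw [← Finset.sum_add_distrib]
          refine Finset.sum_congr rfl fun i _ => ?_
          push_cast
          ring
        rw [this]
        push_cast
        ring
    rw [h5]
    push_cast
    ring

/-- the variance of the sums of `j` gaps and the covariances -/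
lemma VW (N R j : ℕ) (hj : j ≤ R) :
    |(N : ℝ)⁻¹ * ∑ n ∈ Icc 1 N, (SS j n - j) ^ 2 - WW N j| ≤ (N : ℝ)⁻¹ * ((R : ℝ) ^ 2 *
      (∑ n ∈ Icc 1 (2 * R), (dl n - 1) ^ 2 + ∑ n ∈ Ioc N (N + 2 * R), (dl n - 1) ^ 2)) := by
  obtain ⟨x, hx⟩ : ∃ x : ℕ → ℝ, x = fun n => dl n - 1 := ⟨_, rfl⟩
  obtain ⟨E, hE⟩ : ∃ E : ℝ, E = ∑ n ∈ Icc 1 (2 * R), (dl n - 1) ^ 2 +
    ∑ n ∈ Ioc N (N + 2 * R), (dl n - 1) ^ 2 := ⟨_, rfl⟩
  have hE0 : 0 ≤ E := by rw [hE]; positivity
  have e1 : ∀ n, (SS j n - j) ^ 2 = ∑ i ∈ range j, ∑ i' ∈ range j, x (n + i) * x (n + i') := by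
    intro n
    have : SS j n - j = ∑ i ∈ range j, x (n + i) := by
      unfold SS
      rw [hx]
      simp [Finset.sum_sub_distrib]
    rw [this, sq, Finset.sum_mul_sum]
  have e2 : WW N j = (N : ℝ)⁻¹ * ∑ i ∈ range j, ∑ i' ∈ range j,
      ∑ n ∈ Icc 1 N, x n * x (n + (max i i' - min i i')) := by
    have := dbl (fun d => ∑ n ∈ Icc 1 N, x n * x (n + d)) j
    have hS : ∀ d, (N : ℝ)⁻¹ * ∑ n ∈ Icc 1 N, x n * x (n + d) = Cv N d := by
      intro d
      unfold Cv
      rw [hx]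
    rw [this]
    unfold WW
    rw [mul_add, mul_left_comm, hS, mul_left_comm (N : ℝ)⁻¹ 2]
    have hSS : ∑ i ∈ Ico 1 j, ((j : ℝ) - i) * Cv N i =
        ∑ i ∈ Ico 1 j, (N : ℝ)⁻¹ * (((j : ℝ) - i) * ∑ n ∈ Icc 1 N, x n * x (n + i)) := by
      refine Finset.sum_congr rfl fun i _ => ?_
      rw [mul_left_comm, hS]
    rw [hSS, ← Finset.mul_sum]
  have e3 : ∑ n ∈ Icc 1 N, (SS j n - j) ^ 2 = ∑ i ∈ range j, ∑ i' ∈ range j,
      ∑ n ∈ Icc 1 N, x (n + i) * x (n + i') := by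
    rw [Finset.sum_congr rfl fun n _ => e1 n, Finset.sum_comm]
    refine Finset.sum_congr rfl fun i _ => ?_
    rw [Finset.sum_comm]
  rw [e3, e2, ← mul_sub, ← Finset.sum_sub_distrib, abs_mul, abs_of_nonneg (by positivity : 0 ≤ (N : ℝ)⁻¹),
    ← hE]
  apply mul_le_mul_of_nonneg_left _ (by positivity)
  refine (Finset.abs_sum_le_sum_abs _ _).trans ?_
  have hpt : ∀ i ∈ range j, |∑ i' ∈ range j, ∑ n ∈ Icc 1 N, x (n + i) * x (n + i') -
      ∑ i' ∈ range j, ∑ n ∈ Icc 1 N, x n * x (n + (max i i' - min i i'))| ≤ j * E := by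
    intro i hi
    rw [← Finset.sum_sub_distrib]
    refine (Finset.abs_sum_le_sum_abs _ _).trans ?_
    calc _ ≤ ∑ i' ∈ range j, E := by
          refine Finset.sum_le_sum fun i' hi' => ?_
          rw [Finset.mem_range] at hi hi'
          rcases le_total i i' with h | h
          · rw [max_eq_right h, min_eq_left h]
            obtain ⟨d, rfl⟩ := Nat.exists_eq_add_of_le h
            have := shift x N R i d (by omega)
            rw [show i + d - i = d by omega, hE]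
            simp only [hx] at this ⊢
            exact this
          · rw [max_eq_left h, min_eq_right h]
            obtain ⟨d, rfl⟩ := Nat.exists_eq_add_of_le h
            have := shift x N R i' d (by omega)
            rw [show i' + d - i' = d by omega, hE]
            have e4 : ∑ n ∈ Icc 1 N, x (n + (i' + d)) * x (n + i') =
                ∑ n ∈ Icc 1 N, x (n + i') * x (n + (i' + d)) :=
              Finset.sum_congr rfl fun n _ => mul_comm _ _
            rw [e4]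
            simp only [hx] at this ⊢
            exact this
      _ = _ := by simp
  refine (Finset.sum_le_sum hpt).trans ?_
  rw [Finset.sum_const, Finset.card_range, nsmul_eq_mul]
  have hj' : (j : ℝ) ≤ R := by exact_mod_cast hj
  have hj0 : (0 : ℝ) ≤ j := Nat.cast_nonneg _
  calc (j : ℝ) * (j * E) = j ^ 2 * E := by ring
    _ ≤ _ := by gcongr

lemma var_gs : ∫ x : ℝ, x ^ 2 ∂Pool.Agent.Y743.CL.gs = 1 := by
  have h := ProbabilityTheory.variance_id_gaussianReal (μ := 0) (v := 1)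
  rw [ProbabilityTheory.variance_eq_integral (by fun_prop)] at h
  have h2 : ∫ x : ℝ, id x ∂(ProbabilityTheory.gaussianReal 0 1) = 0 := by
    simp
  rw [h2] at h
  simp only [id, sub_zero, NNReal.coe_one] at h
  exact h

/-- squares over short blocks -/
lemma edge (hRH : RHs) : ∃ C : ℝ, 0 < C ∧ ∀ N R : ℕ, 1 ≤ R → 2 * R ≤ N →
    ∑ n ∈ Icc 1 (2 * R), (dl n - 1) ^ 2 + ∑ n ∈ Ioc N (N + 2 * R), (dl n - 1) ^ 2 ≤
      C * R * Real.sqrt N := by
  obtain ⟨C, hC, h⟩ := SS_mom hRH 4 (by norm_num)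
  have h1 : ∀ N : ℕ, 1 ≤ N → ∑ n ∈ Icc 1 N, (dl n - 1) ^ 4 ≤ C * N := by
    intro N hN
    have h2 := h N 1 hN
    have e : ∀ n, |SS 1 n - (1 : ℕ)| ^ 4 = (dl n - 1) ^ 4 := by
      intro n
      unfold SS
      rw [Finset.sum_range_one, add_zero, Nat.cast_one]
      exact (show Even 4 by decide).pow_abs _
    simp only [e] at h2
    simpa using h2
  have key : ∀ S : Finset ℕ, ∀ N R : ℕ, 1 ≤ N → S.card ≤ 2 * R → S ⊆ Icc 1 N →
      ∑ n ∈ S, (dl n - 1) ^ 2 ≤ Real.sqrt (2 * R * (C * N)) := by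
    intro S N R hN hc hS
    apply Real.le_sqrt_of_sq_le
    have h2 := sq_sum_le_card_mul_sum_sq (s := S) (f := fun n => (dl n - 1) ^ 2)
    refine h2.trans ?_
    have h3 : ∑ n ∈ S, ((dl n - 1) ^ 2) ^ 2 ≤ C * N := by
      refine le_trans ?_ (h1 N hN)
      have : ∑ n ∈ S, ((dl n - 1) ^ 2) ^ 2 = ∑ n ∈ S, (dl n - 1) ^ 4 :=
        Finset.sum_congr rfl fun n _ => by ring
      rw [this]
      exact Finset.sum_le_sum_of_subset_of_nonneg hS fun n _ _ => by positivity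
    have h4 : (S.card : ℝ) ≤ 2 * R := by exact_mod_cast hc
    exact mul_le_mul h4 h3 (Finset.sum_nonneg fun _ _ => by positivity) (by positivity)
  refine ⟨8 * (C + 1), by positivity, fun N R hR hRN => ?_⟩
  have hN1 : 1 ≤ N := by omega
  have hNr : (1 : ℝ) ≤ N := by exact_mod_cast hN1
  have hRr : (1 : ℝ) ≤ R := by exact_mod_cast hR
  have k1 := key (Icc 1 (2 * R)) N R hN1 (by simp) (by
    intro n hn
    rw [Finset.mem_Icc] at hn ⊢
    omega)
  have k2 := key (Ioc N (N + 2 * R)) (N + 2 * R) R (by omega) (by simp) (by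
    intro n hn
    rw [Finset.mem_Ioc] at hn
    rw [Finset.mem_Icc]
    omega)
  have h5 : Real.sqrt (2 * R * (C * N)) ≤ 4 * (C + 1) * R * Real.sqrt N := by
    rw [Real.sqrt_le_left (by positivity)]
    rw [mul_pow, Real.sq_sqrt (by positivity)]
    have : 2 * (R : ℝ) * (C * N) = (2 * R * C) * N := by ring
    rw [this]
    apply mul_le_mul_of_nonneg_right _ (by positivity)
    nlinarith
  have h6 : Real.sqrt (2 * R * (C * ((N + 2 * R : ℕ) : ℝ))) ≤ 4 * (C + 1) * R * Real.sqrt N := by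
    rw [Real.sqrt_le_left (by positivity)]
    rw [mul_pow, Real.sq_sqrt (by positivity)]
    have h7 : ((N + 2 * R : ℕ) : ℝ) ≤ 2 * N := by
      push_cast
      have : (2 * (R : ℝ)) ≤ N := by exact_mod_cast hRN
      linarith
    calc 2 * (R : ℝ) * (C * ((N + 2 * R : ℕ) : ℝ)) ≤ 2 * R * (C * (2 * N)) := by gcongr
      _ = (4 * R * C) * N := by ring
      _ ≤ _ := by
        apply mul_le_mul_of_nonneg_right _ (by positivity)
        nlinarith
  calc _ ≤ 4 * (C + 1) * R * Real.sqrt N + 4 * (C + 1) * R * Real.sqrt N :=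
        add_le_add (k1.trans h5) (k2.trans h6)
    _ = _ := by ring

lemma Nbig {R N : ℕ} (hR : 16 ≤ R) (h : (R : ℝ) * Real.log R ≤ Real.log N) : (R : ℝ) ^ 16 ≤ N := by
  have hR0 : (0 : ℝ) < R := by exact_mod_cast (by omega : 0 < R)
  have hR16 : (16 : ℝ) ≤ R := by exact_mod_cast hR
  have hl : 0 < Real.log (R : ℝ) := Real.log_pos (by linarith)
  have hN0 : (0 : ℝ) < N := by
    rcases Nat.eq_zero_or_pos N with h1 | h1
    · subst h1
      simp at h
      nlinarith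
    · exact_mod_cast h1
  rw [← Real.log_le_log_iff (by positivity) hN0, Real.log_pow]
  push_cast
  nlinarith

/-- **the covariances of the unfolded gaps** -/
theorem covs (hRH : RHs) (φ : ℝ → ℝ) (hφ : ContDiff ℝ 2 φ) (h1 : φ 1 = 0) (ε : ℝ) (hε : 0 < ε) :
    ∃ R0 : ℕ, ∀ R : ℕ, R0 ≤ R → ∀ N : ℕ, R * Real.log R ≤ Real.log N →
      |R * (φ 0 * Cv N 0 + 2 * ∑ j ∈ Ico 1 R, φ ((j : ℕ) / R) * Cv N j) +
        deriv φ 0 / Real.pi ^ 2 * Real.log R| ≤ ε * Real.log R := by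
  have hpi := Real.pi_pos
  obtain ⟨η, hη, hmain⟩ := main φ hφ h1 ε hε (1 / Real.pi ^ 2) (by positivity)
  -- the variance for large `j`
  obtain ⟨j1, hj1⟩ := eventually_atTop.1 (conv hRH (fun x => x ^ 2) (by fun_prop) 1 2 (fun x => by
    rw [one_mul, abs_pow]
    exact pow_le_pow_left₀ (abs_nonneg _) (by linarith) 2) (η / 2) (by positivity))
  obtain ⟨j0, hj0⟩ : ∃ j0 : ℕ, j0 = max j1 16 := ⟨_, rfl⟩
  obtain ⟨C1, hC1, hm2⟩ := SS_mom hRH 2 (by norm_num)
  obtain ⟨C2, hC2, hed⟩ := edge hRH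
  obtain ⟨R1, hR1, hM⟩ := hmain j0 (C1 * j0 ^ 2 + 1)
  obtain ⟨R2, hR2⟩ := exists_nat_ge (max (C2) (2 * C2 / η))
  refine ⟨max R1 (max R2 (max j0 16)), fun R hR N hN => ?_⟩
  have hRR1 : R1 ≤ R := (le_max_left _ _).trans hR
  have hRR2 : R2 ≤ R := ((le_max_left _ _).trans (le_max_right _ _)).trans hR
  have hRj0 : j0 ≤ R := ((le_max_left _ _).trans ((le_max_right _ _).trans (le_max_right _ _))).trans hR
  have hR16 : 16 ≤ R := ((le_max_right _ _).trans ((le_max_right _ _).trans (le_max_right _ _))).trans hR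
  have hNb := Nbig hR16 hN
  have hR16r : (16 : ℝ) ≤ R := by exact_mod_cast hR16
  have hR0 : (0 : ℝ) < R := by linarith
  have hN2R : 2 * R ≤ N := by
    have : (2 * (R : ℝ)) ≤ N := by
      calc 2 * (R : ℝ) ≤ R ^ 1 * R ^ 15 := by
            rw [pow_one, mul_comm]
            apply mul_le_mul_of_nonneg_left _ hR0.le
            calc (2 : ℝ) ≤ R := by linarith
              _ = R ^ 1 := (pow_one _).symm
              _ ≤ R ^ 15 := pow_le_pow_right₀ (by linarith) (by norm_num)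
        _ = R ^ 16 := by ring
        _ ≤ N := hNb
    exact_mod_cast this
  have hN1 : 1 ≤ N := by omega
  have hN0 : (0 : ℝ) < N := by exact_mod_cast (by omega : 0 < N)
  have hlR : 1 ≤ Real.log (R : ℝ) := by
    rw [Real.le_log_iff_exp_le hR0]
    linarith [Real.exp_one_lt_d9]
  -- the edges
  have hE : (N : ℝ)⁻¹ * ((R : ℝ) ^ 2 * (∑ n ∈ Icc 1 (2 * R), (dl n - 1) ^ 2 +
      ∑ n ∈ Ioc N (N + 2 * R), (dl n - 1) ^ 2)) ≤ min 1 (η / 2) := by
    have h2 := hed N R (by omega) hN2R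
    have hs : (R : ℝ) ^ 8 ≤ Real.sqrt N := by
      apply Real.le_sqrt_of_sq_le
      calc ((R : ℝ) ^ 8) ^ 2 = (R : ℝ) ^ 16 := by ring
        _ ≤ (N : ℝ) := hNb
    have hs0 : 0 < Real.sqrt (N : ℝ) := Real.sqrt_pos.2 hN0
    have hR2' : max C2 (2 * C2 / η) ≤ R := hR2.trans (by exact_mod_cast hRR2)
    have hCR : C2 ≤ R := (le_max_left _ _).trans hR2'
    have hCR' : 2 * C2 / η ≤ R := (le_max_right _ _).trans hR2'
    have h3 : (N : ℝ)⁻¹ * ((R : ℝ) ^ 2 * (C2 * R * Real.sqrt N)) ≤ C2 / R := by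
      rw [inv_mul_le_iff₀ hN0]
      have hNs : (N : ℝ) = Real.sqrt N * Real.sqrt N := (Real.mul_self_sqrt hN0.le).symm
      have h4 : (R : ℝ) ^ 4 ≤ Real.sqrt N := by
        refine le_trans ?_ hs
        exact pow_le_pow_right₀ (by linarith) (by norm_num)
      calc (R : ℝ) ^ 2 * (C2 * R * Real.sqrt N) = (R ^ 4) * Real.sqrt N * (C2 / R) := by
            field_simp
        _ ≤ Real.sqrt N * Real.sqrt N * (C2 / R) := by gcongr
        _ = N * (C2 / R) := by rw [← hNs]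
    refine (mul_le_mul_of_nonneg_left (mul_le_mul_of_nonneg_left h2 (by positivity))
      (by positivity)).trans (h3.trans (le_min ?_ ?_))
    · rw [div_le_one hR0]; exact hCR
    · rw [div_le_iff₀ hR0]
      rw [div_le_iff₀ hη] at hCR'
      linarith
  have hE1 := hE.trans (min_le_left _ _)
  have hE2 := hE.trans (min_le_right _ _)
  have hfin := hM R hRR1 (WW N) (WW_zero N) ?_ ?_
  · have e1 : ∑ j ∈ Ico 1 R, φ ((j : ℕ) / R) * (WW N (j + 1) - 2 * WW N j + WW N (j - 1)) +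
        φ 0 * WW N 1 = φ 0 * Cv N 0 + 2 * ∑ j ∈ Ico 1 R, φ ((j : ℕ) / R) * Cv N j := by
      rw [WW_one, Finset.mul_sum, add_comm]
      congr 1
      refine Finset.sum_congr rfl fun j hj => ?_
      rw [Finset.mem_Ico] at hj
      rw [WW_dif N j hj.1]
      ring
    rw [e1] at hfin
    have e2 : deriv φ 0 / Real.pi ^ 2 * Real.log R = deriv φ 0 * (1 / Real.pi ^ 2) * Real.log R := by ring
    rw [e2]
    exact hfin
  · intro j hj hjj
    have h2 := VW N R j (by omega)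
    have h3 := hm2 N j (by omega)
    have h4 : (N : ℝ)⁻¹ * ∑ n ∈ Icc 1 N, (SS j n - j) ^ 2 ≤ C1 * j0 ^ 2 := by
      rw [inv_mul_le_iff₀ hN0]
      have e : ∀ n, |SS j n - j| ^ 2 = (SS j n - j) ^ 2 := fun n => sq_abs _
      simp only [e] at h3
      refine h3.trans ?_
      have : (j : ℝ) ≤ j0 := by exact_mod_cast hjj.le
      have hjn : (0 : ℝ) ≤ j := Nat.cast_nonneg _
      calc C1 * (j : ℝ) ^ 2 * N ≤ C1 * (j0 : ℝ) ^ 2 * N := by gcongr
        _ = _ := by ring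
    have h5 : 0 ≤ (N : ℝ)⁻¹ * ∑ n ∈ Icc 1 N, (SS j n - j) ^ 2 := by positivity
    have h6 := abs_le.1 (h2.trans hE1)
    rw [abs_le]
    constructor
    · have : 0 ≤ C1 * (j0 : ℝ) ^ 2 := by positivity
      linarith [h6.2]
    · linarith [h6.1]
  · intro j hj hjj hjR
    have h2 := VW N R j hjR
    have hj16 : 16 ≤ j := by rw [hj0] at hjj; exact (le_max_right _ _).trans hjj
    have hjj1 : j1 ≤ j := by rw [hj0] at hjj; exact (le_max_left _ _).trans hjj
    have hjr : (16 : ℝ) ≤ j := by exact_mod_cast hj16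
    have hjRr : (j : ℝ) ≤ R := by exact_mod_cast hjR
    have hlj : 1 ≤ Real.log (j : ℝ) := by
      rw [Real.le_log_iff_exp_le (by linarith)]
      linarith [Real.exp_one_lt_d9]
    have hljR : Real.log (j : ℝ) ≤ Real.log R := Real.log_le_log (by linarith) hjRr
    have h3 := hj1 j hjj1 N hN1 (by
      refine le_trans ?_ hN
      exact mul_le_mul hjRr hljR (by linarith) hR0.le)
    rw [var_gs, one_mul] at h3
    have hlm : lm j ^ 2 = Real.log j / Real.pi ^ 2 := by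
      unfold Pool.Agent.Y743.CL.lm
      rw [div_pow, Real.sq_sqrt (by linarith)]
    have hlm0 : lm j ≠ 0 := by
      unfold Pool.Agent.Y743.CL.lm
      have : 0 < Real.sqrt (Real.log j) := Real.sqrt_pos.2 (by linarith)
      positivity
    have e3 : ∑ n ∈ Icc 1 N, XX j n ^ 2 = (∑ n ∈ Icc 1 N, (SS j n - j) ^ 2) / lm j ^ 2 := by
      rw [Finset.sum_div]
      refine Finset.sum_congr rfl fun n _ => ?_
      unfold Pool.Agent.R320.VQ.XX
      rw [div_pow]
    have h4 : |(N : ℝ)⁻¹ * ∑ n ∈ Icc 1 N, (SS j n - j) ^ 2 - 1 / Real.pi ^ 2 * Real.log j| ≤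
        η / 2 * Real.log R := by
      have e4 : (N : ℝ)⁻¹ * ∑ n ∈ Icc 1 N, (SS j n - j) ^ 2 - 1 / Real.pi ^ 2 * Real.log j =
          (N : ℝ)⁻¹ * (lm j ^ 2 * (∑ n ∈ Icc 1 N, XX j n ^ 2 - N)) := by
        rw [e3, mul_sub, mul_div_cancel₀ _ (pow_ne_zero 2 hlm0), mul_sub, hlm]
        have : (N : ℝ)⁻¹ * (Real.log j / Real.pi ^ 2 * N) = 1 / Real.pi ^ 2 * Real.log j := by
          field_simp
        rw [this]
      rw [e4, abs_mul, abs_mul, abs_of_pos (by positivity : 0 < (N : ℝ)⁻¹),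
        abs_of_nonneg (by positivity : 0 ≤ lm j ^ 2), inv_mul_le_iff₀ hN0]
      have hlmR : lm j ^ 2 ≤ Real.log R := by
        rw [hlm]
        refine (div_le_self (by linarith) ?_).trans hljR
        nlinarith [Real.pi_gt_three]
      calc lm j ^ 2 * |∑ n ∈ Icc 1 N, XX j n ^ 2 - N| ≤ Real.log R * (η / 2 * N) := by
            apply mul_le_mul hlmR h3 (abs_nonneg _) (by linarith)
        _ = _ := by ring
    have h5 : |WW N j - 1 / Real.pi ^ 2 * Real.log j| ≤ η / 2 * Real.log R + η / 2 := by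
      have e5 : WW N j - 1 / Real.pi ^ 2 * Real.log j =
          ((N : ℝ)⁻¹ * ∑ n ∈ Icc 1 N, (SS j n - j) ^ 2 - 1 / Real.pi ^ 2 * Real.log j) -
          ((N : ℝ)⁻¹ * ∑ n ∈ Icc 1 N, (SS j n - j) ^ 2 - WW N j) := by ring
      rw [e5]
      exact (abs_sub _ _).trans (add_le_add h4 (h2.trans hE2))
    refine h5.trans ?_
    nlinarith

end

end Pool.Agent.T6.H5.CV
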